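import Mathlib

set_option autoImplicit false

namespace Pool.Agent.Results.MP_2db6a9_co.No

open Finset

/-- bounded and submodular, on the algebra of all subsets -/
def BddSub {J : Type*} (ψ : Set J → ℝ) : Prop :=
  (∃ b, ∀ X, |ψ X| ≤ b) ∧ ∀ X Y, ψ (X ∩ Y) + ψ (X ∪ Y) ≤ ψ X + ψ Y

/-- bounded variation -/
def BV {J : Type*} (φ : Set J → ℝ) : Prop := ∃ f g, Monotone f ∧ Monotone g ∧ φ = f - g

theorem conc (g : ℕ → ℝ) (m : ℕ) (F : ℝ)
    (h : ∀ k, k + 2 ≤ 2 * (m + 1) → g k + g (k + 2) ≤ 2 * g (k + 1))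
    (h' : g m + g (m + 2) + F ≤ 2 * g (m + 1)) :
    (m + 1) * F ≤ 2 * g (m + 1) - g 0 - g (m + 1 + (m + 1)) := by
  have a : ∀ i j, i + j + 1 ≤ 2 * (m + 1) → g (i + j + 1) - g (i + j) ≤ g (i + 1) - g i := by
    intro i j
    induction j with
    | zero => intro _; exact le_rfl
    | succ j ih =>
      intro hj
      have := ih (by omega)
      have := h (i + j) (by omega)
      rw [← add_assoc]
      linarith
  have b := card_nsmul_le_sum (range (m + 1)) (fun i => g (i + 1) - g i) (g (m + 1) - g m)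
    fun i hi => by
      have := a i (m - i) (by have := mem_range.1 hi; omega)
      rwa [show i + (m - i) = m by have := mem_range.1 hi; omega] at this
  have c := sum_le_card_nsmul (range (m + 1)) (fun i => g (m + 1 + (i + 1)) - g (m + 1 + i))
    (g (m + 2) - g (m + 1)) fun i hi => a (m + 1) i (by have := mem_range.1 hi; omega)
  rw [sum_range_sub (fun i => g (m + 1 + i))] at c
  rw [sum_range_sub] at b
  simp only [card_range, nsmul_eq_mul, add_zero] at b c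
  push_cast at b c
  nlinarith [mul_le_mul_of_nonneg_left h' (by positivity : (0 : ℝ) ≤ m + 1)]

def Big (X : Set (ℕ × ℕ)) : Prop :=
  ∃ n, ∃ T : Finset (Fin n), n < 2 * T.card ∧ ∀ i ∈ T, (n, i.1) ∈ X

def P {N : ℕ} (σ : Equiv.Perm (Fin N)) (k : ℕ) : Set (ℕ × ℕ) :=
  {x | ∃ j : Fin N, x = (N, j.1) ∧ (σ j).1 < k}

theorem big {N : ℕ} (σ : Equiv.Perm (Fin N)) (k : ℕ) (hk : k ≤ N) : Big (P σ k) ↔ N < 2 * k := by
  have hc : (univ.filter fun j => (σ j).1 < k).card = k := by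
    rw [card_equiv σ (t := univ.filter fun j => j.1 < k) (by simp)]
    simp [Fin.card_filter_val_lt, hk]
  constructor
  · rintro ⟨n, T, h1, h2⟩
    obtain ⟨i, hi⟩ := card_pos.1 (show 0 < T.card by omega)
    obtain ⟨j, e, -⟩ := h2 i hi
    obtain rfl : n = N := congrArg Prod.fst e
    have : T ⊆ univ.filter fun j => (σ j).1 < k := fun i hi => by
      obtain ⟨j, e, h⟩ := h2 i hi
      obtain rfl : i = j := Fin.ext (congrArg Prod.snd e)
      simpa using h
    have := card_le_card this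
    omega
  · intro h
    exact ⟨N, _, by rwa [hc], fun i hi => ⟨i, rfl, (mem_filter.1 hi).2⟩⟩

theorem io {N : ℕ} (σ : Equiv.Perm (Fin N)) (k : ℕ) (hk : k + 2 ≤ N) :
    P σ (k + 1) ∩ P (Equiv.swap ⟨k, by omega⟩ ⟨k + 1, by omega⟩ * σ) (k + 1) = P σ k ∧
    P σ (k + 1) ∪ P (Equiv.swap ⟨k, by omega⟩ ⟨k + 1, by omega⟩ * σ) (k + 1) = P σ (k + 2) := by
  have e : ∀ j, ((Equiv.swap ⟨k, by omega⟩ ⟨k + 1, by omega⟩ * σ : Equiv.Perm (Fin N)) j).1 < k + 1
      ↔ (σ j).1 < k ∨ (σ j).1 = k + 1 := by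
    intro j
    rw [Equiv.Perm.mul_apply, Equiv.swap_apply_def]
    split_ifs with h1 h2 <;> simp only [Fin.ext_iff] at * <;> omega
  constructor <;> ext x <;> simp only [P, e, Set.mem_inter_iff, Set.mem_union, Set.mem_setOf_eq]
  · constructor
    · rintro ⟨⟨i, rfl, h1⟩, j, e, h2⟩
      obtain rfl : i = j := Fin.ext (congrArg Prod.snd e)
      exact ⟨i, rfl, by omega⟩
    · rintro ⟨i, rfl, h⟩
      exact ⟨⟨i, rfl, by omega⟩, i, rfl, by omega⟩
  · constructor
    · rintro (⟨i, rfl, h⟩ | ⟨i, rfl, h⟩) <;> exact ⟨i, rfl, by omega⟩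
    · rintro ⟨i, rfl, h⟩
      by_cases h' : (σ i).1 < k + 1
      · exact Or.inl ⟨i, rfl, h'⟩
      · exact Or.inr ⟨i, rfl, by omega⟩

theorem result : ∃ φ : Set (ℕ × ℕ) → ℝ, BV φ ∧
    ¬ ∃ ψ₁ ψ₂, BddSub ψ₁ ∧ BddSub ψ₂ ∧ φ = ψ₁ - ψ₂ := by
  classical
  refine ⟨fun X => if Big X then 1 else 0, ⟨_, 0, fun X Y h => ?_, monotone_const,
    (sub_zero _).symm⟩, ?_⟩
  · show (if Big X then (1 : ℝ) else 0) ≤ if Big Y then 1 else 0
    split_ifs with h1 h2
    · exact le_rfl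
    · obtain ⟨n, T, a, b⟩ := h1
      exact absurd ⟨n, T, a, fun i hi => h (b i hi)⟩ h2
    · exact zero_le_one
    · exact le_rfl
  rintro ⟨ψ₁, ψ, ⟨-, s1⟩, ⟨⟨b, hb⟩, s2⟩, e⟩
  obtain ⟨m, hm⟩ := exists_nat_gt (4 * b)
  let g : ℕ → ℝ := fun k => ∑ σ : Equiv.Perm (Fin (2 * (m + 1))), ψ (P σ k)
  have key : ∀ (k : ℕ) (hk : k + 2 ≤ 2 * (m + 1)) (c : ℝ), (∀ σ τ : Equiv.Perm (Fin (2 * (m + 1))),
      P σ (k + 1) ∩ P τ (k + 1) = P σ k → P σ (k + 1) ∪ P τ (k + 1) = P σ (k + 2) →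
      ψ (P σ k) + ψ (P σ (k + 2)) + c ≤ ψ (P σ (k + 1)) + ψ (P τ (k + 1))) →
      g k + g (k + 2) + (2 * (m + 1)).factorial * c ≤ 2 * g (k + 1) := by
    intro k hk c h
    have := sum_le_sum fun σ (_ : σ ∈ univ) => h σ _ (io σ k hk).1 (io σ k hk).2
    simp only [sum_add_distrib, sum_const, card_univ, Fintype.card_perm, Fintype.card_fin,
      nsmul_eq_mul] at this
    have e := Equiv.sum_comp (Equiv.mulLeft (Equiv.swap (⟨k, by omega⟩ : Fin (2 * (m + 1)))
      ⟨k + 1, by omega⟩)) fun σ => ψ (P σ (k + 1))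
    simp only [Equiv.coe_mulLeft] at e
    rw [e] at this
    simp only [g]
    linarith
  have e' : ∀ X, ψ₁ X = (if Big X then 1 else 0) + ψ X := fun X => by
    have := congrFun e X
    simp only [Pi.sub_apply] at this
    linarith
  have h1 := conc g m _ (fun k hk => by
    simpa using key k hk 0 fun σ τ a b => by
      have := s2 (P σ (k + 1)) (P τ (k + 1))
      rw [a, b] at this
      linarith) (key m (by omega) 1 fun σ τ a b => by
      have := s1 (P σ (m + 1)) (P τ (m + 1))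
      rw [a, b, e', e', e', e', big _ _ (by omega), big _ _ (by omega), big _ _ (by omega),
        big _ _ (by omega), if_neg (by omega), if_pos (by omega), if_neg (by omega)] at this
      linarith)
  have h2 : ∀ k, |g k| ≤ (2 * (m + 1)).factorial * b := fun k => by
    refine (abs_sum_le_sum_abs _ _).trans ((sum_le_card_nsmul _ _ b fun σ _ => hb _).trans ?_)
    simp [Fintype.card_perm]
  have h3 : (0 : ℝ) < (2 * (m + 1)).factorial := by positivity
  have := abs_le.1 (h2 (m + 1))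
  have := abs_le.1 (h2 0)
  have := abs_le.1 (h2 (m + 1 + (m + 1)))
  nlinarith [mul_pos h3 (sub_pos.2 hm)]

end Pool.Agent.Results.MP_2db6a9_co.No
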